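import Mathlib
import Pool.Agent.Lib.MP_d3f853_an.Defs
import Pool.Agent.Lib.MP_d3f853_an.ClassB

namespace Pool.Agent.Results.MP_d3f853_an.Classification

open MeasureTheory Pool.Agent.Lib.MP_d3f853_an

universe u v w

/-- A measure preserving action of a countable group has an invariant sub-sigma-algebra `A` with
positive relative Rokhlin entropy and finitely generated `L¹₀(X | A)` exactly when the points
with a finite orbit of at least two elements have positive measure. -/
theorem result (Γ : Type u) [Group Γ] [Countable Γ] (X : Type v) [MulAction Γ X]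
    [mX : MeasurableSpace X] [StandardBorelSpace X]
    (μ : Measure X) [IsProbabilityMeasure μ]
    (hμ : ∀ γ : Γ, MeasurePreserving (fun x : X => γ • x) μ μ)
    (𝕜 : Type w) [RCLike 𝕜] :
    (∃ A : MeasurableSpace X, A ≤ mX ∧
      (∀ (γ : Γ) (s : Set X), MeasurableSet[A] s →
        ∃ t : Set X, MeasurableSet[A] t ∧ (fun x : X => γ • x) ⁻¹' s =ᵐ[μ] t) ∧
      0 < @rokhlinEntropy Γ X _ A mX μ ∧
      ∃ (m : ℕ) (f : Fin m → Lp 𝕜 1 μ), 1 ≤ m ∧ (∀ s, μ[f s | A] =ᵐ[μ] 0) ∧
        ∀ g : Lp 𝕜 1 μ, g ∈ orbitModule Γ A f ↔ μ[g | A] =ᵐ[μ] 0) ↔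
    0 < μ {x | (MulAction.orbit Γ x).Finite ∧ ∃ γ : Γ, γ • x ≠ x} :=
  main_class hμ 𝕜

end Pool.Agent.Results.MP_d3f853_an.Classification
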