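import Mathlib
import Pool.Agent.Lib.MP_d3f853_an.Defs
import Pool.Agent.Lib.MP_d3f853_an.MeasC

namespace Pool.Agent.Results.MP_d3f853_an.InMeasure

open MeasureTheory Pool.Agent.Lib.MP_d3f853_an
open scoped ENNReal

universe u v w

/-- For a measure preserving action of a countable group whose orbits are almost surely infinite
or single points, and an invariant sub-sigma-algebra `A` with positive relative Rokhlin entropy,
no finite family of measurable functions generates the bounded part of `L¹₀(X | A)`, even for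
convergence in measure and with unbounded `A`-measurable coefficients. -/
theorem result (Γ : Type u) [Group Γ] [Countable Γ] (X : Type v) [MulAction Γ X]
    (A : MeasurableSpace X) [mX : MeasurableSpace X] [StandardBorelSpace X]
    (μ : Measure X) [IsProbabilityMeasure μ]
    (hμ : ∀ γ : Γ, MeasurePreserving (fun x : X => γ • x) μ μ)
    (horb : ∀ᵐ x ∂μ, (MulAction.orbit Γ x).Infinite ∨ ∀ γ : Γ, γ • x = x)
    (hA : A ≤ mX)
    (hAinv : ∀ (γ : Γ) (s : Set X), MeasurableSet[A] s →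
      ∃ t : Set X, MeasurableSet[A] t ∧ (fun x : X => γ • x) ⁻¹' s =ᵐ[μ] t)
    (hpos : 0 < rokhlinEntropy Γ A μ)
    (𝕜 : Type w) [RCLike 𝕜] (m : ℕ) (f : Fin m → X → 𝕜)
    (hf : ∀ s, AEStronglyMeasurable (f s) μ) :
    ∃ g : X → 𝕜, MemLp g ∞ μ ∧ μ[g | A] =ᵐ[μ] 0 ∧ ∃ δ : ℝ, 0 < δ ∧
      ∀ (n : ℕ) (a : Fin n → X → 𝕜) (γ : Fin n → Γ) (s : Fin n → Fin m),
        (∀ i, AEStronglyMeasurable[A] (a i) μ) →
        ENNReal.ofReal δ ≤ μ {x | δ ≤ ‖g x - ∑ i, a i x * f (s i) ((γ i)⁻¹ • x)‖} :=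
  main_measure hμ horb hA hAinv hpos f hf

end Pool.Agent.Results.MP_d3f853_an.InMeasure
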